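import Pool.Agent.H629.CG.Stm

set_option autoImplicit false

namespace Pool.Agent.H127.CG.SUMN

open MeasureTheory ProbabilityTheory Filter Topology Set
open scoped ENNReal NNReal
open Pool.Agent.H629.CG

lemma anti {a b : ℝ≥0∞} (h : a ≤ b) {s : ℝ} (hs : 0 ≤ s) : b ^ (-s) ≤ a ^ (-s) := by
  rw [ENNReal.rpow_neg, ENNReal.rpow_neg]
  exact ENNReal.inv_le_inv.2 (ENNReal.rpow_le_rpow h hs)

lemma lint_prod {Ω : Type} [MeasurableSpace Ω] (P : Measure Ω) [IsProbabilityMeasure P] {n : ℕ}
    (f : Fin n → Ω → ℝ≥0∞) (hf : ∀ i, Measurable (f i)) :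
    ∫⁻ η : Fin n → Ω, ∏ i, f i (η i) ∂(Measure.pi fun _ => P) = ∏ i, ∫⁻ ω, f i ω ∂P := by
  have hind : iIndepFun (fun i (η : Fin n → Ω) => f i (η i)) (Measure.pi fun _ => P) :=
    iIndepFun_pi (μ := fun _ : Fin n => P) (fun i => (hf i).aemeasurable)
  rw [lintegral_prod_eq_prod_lintegral_of_indepFun Finset.univ _ hind
    (fun i => (hf i).comp (measurable_pi_apply i))]
  refine Finset.prod_congr rfl fun i _ => ?_
  exact (measurePreserving_eval (fun _ : Fin n => P) i).lintegral_comp (hf i)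

lemma pw {Ω : Type} (N : Ω → ℝ≥0∞) (m : ℕ) (s : ℝ) (x : ℝ≥0∞) (hs : 0 < s)
    (η : Fin (m + 1) → Ω) :
    (∑ i, N (η i)) ^ (-s) ≤ x ^ (-s) +
      ∏ i : Fin (m + 1), (Fin.cases (fun ω => N ω ^ (-s))
        (fun _ => {ω : Ω | N ω ≤ x}.indicator (fun _ => (1 : ℝ≥0∞))) i : Ω → ℝ≥0∞) (η i) := by
  rw [Fin.prod_univ_succ]
  simp only [Fin.cases_zero, Fin.cases_succ]
  by_cases h : ∃ i : Fin m, x < N (η i.succ)
  · obtain ⟨i, hi⟩ := h
    have h1 : x ≤ ∑ i, N (η i) :=
      hi.le.trans (Finset.single_le_sum (f := fun i => N (η i)) (fun _ _ => zero_le)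
        (Finset.mem_univ i.succ))
    exact (anti h1 hs.le).trans le_self_add
  · push Not at h
    have h1 : ∀ i : Fin m, {ω : Ω | N ω ≤ x}.indicator (fun _ => (1 : ℝ≥0∞)) (η i.succ) = 1 := by
      intro i
      have hmem : η i.succ ∈ {ω : Ω | N ω ≤ x} := h i
      exact Set.indicator_of_mem hmem _
    rw [Finset.prod_congr rfl fun i _ => h1 i, Finset.prod_const_one, mul_one]
    have h2 : N (η 0) ≤ ∑ i, N (η i) :=
      Finset.single_le_sum (f := fun i => N (η i)) (fun _ _ => zero_le) (Finset.mem_univ 0)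
    exact (anti h2 hs.le).trans le_add_self

theorem t_SUMN : S_SUMN := by
  intro Ω _ P _ N hN m s x hs hx
  have hmeas : ∀ i : Fin (m + 1), Measurable (Fin.cases (fun ω => N ω ^ (-s))
      (fun _ => {ω : Ω | N ω ≤ ENNReal.ofReal x}.indicator (fun _ => (1 : ℝ≥0∞))) i :
        Ω → ℝ≥0∞) := by
    intro i
    refine Fin.cases ?_ (fun i => ?_) i
    · exact hN.pow_const _
    · exact measurable_const.indicator (measurableSet_le hN measurable_const)
  refine (lintegral_mono fun η => pw N m s (ENNReal.ofReal x) hs η).trans ?_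
  rw [lintegral_add_left measurable_const, lintegral_const, measure_univ, mul_one]
  refine add_le_add_right ?_ _
  rw [lint_prod P _ hmeas, Fin.prod_univ_succ]
  simp only [Fin.cases_zero, Fin.cases_succ]
  rw [Finset.prod_const, Finset.card_univ, Fintype.card_fin,
    lintegral_indicator (measurableSet_le hN measurable_const), lintegral_const, one_mul,
    Measure.restrict_apply MeasurableSet.univ, Set.univ_inter, mul_comm]

theorem t_SUMG : S_SUMG := by
  intro Ω _ P _ N hN m hm s hs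
  have hm' : (0 : ℝ) < m := by exact_mod_cast hm
  have hpw : ∀ η : Fin m → Ω, (∑ i, N (η i)) ^ (-s) ≤ ∏ i : Fin m, N (η i) ^ (-(s / m)) := by
    intro η
    have h1 : (∑ i, N (η i)) ^ (-s) = ∏ _i : Fin m, (∑ i, N (η i)) ^ (-(s / m)) := by
      rw [Finset.prod_const, Finset.card_univ, Fintype.card_fin, ← ENNReal.rpow_natCast,
        ← ENNReal.rpow_mul]
      congr 1
      field_simp
    rw [h1]
    refine Finset.prod_le_prod' fun j _ => ?_
    apply anti _ (by positivity)
    exact Finset.single_le_sum (f := fun i => N (η i)) (fun _ _ => zero_le) (Finset.mem_univ j)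
  refine (lintegral_mono hpw).trans ?_
  rw [lint_prod P (fun _ : Fin m => fun ω => N ω ^ (-(s / m)))
    (fun _ => hN.pow_const _), Finset.prod_const, Finset.card_univ, Fintype.card_fin]

end Pool.Agent.H127.CG.SUMN
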